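import Pool.Agent.Helper11.PC.Defs
import Pool.Agent.Helper28.Para.Inject

/-! # Magnus coefficients of a free group on an arbitrary set (project PC, packet MAGF) -/

namespace Pool.Agent.Helper67.PC

universe u v

open Pool.Agent.Helper7.Comm Pool.Agent.Helper28.Para Pool.Agent.Helper11.PC

section

variable {X : Type v} [DecidableEq X]

/-- The Magnus coefficients. -/
noncomputable def co (g : FreeGroup X) (v : List X) : ℚ := (mag ℚ g : NC X ℚ) v

theorem co_mul (g h : FreeGroup X) (v : List X) : co (g * h) v =
    ∑ i ∈ Finset.range (v.length + 1), co g (v.take i) * co h (v.drop i) := by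
  unfold co
  rw [map_mul, Units.val_mul, NC.mul_apply]

theorem co_one (v : List X) : co (1 : FreeGroup X) v = if v = [] then 1 else 0 := by
  unfold co
  rw [map_one, Units.val_one]
  cases v <;> simp

theorem co_of (x : X) (v : List X) :
    co (FreeGroup.of x) v = if v = [] then 1 else if v = [x] then 1 else 0 := by
  unfold co
  rw [mag_of]
  cases v with
  | nil => simp [NC.letter_nil]
  | cons a v => simp [NC.letter]

theorem co_inv_of (x : X) (v : List X) :
    co (FreeGroup.of x)⁻¹ v = if v = List.replicate v.length x then (-1) ^ v.length else 0 := by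
  unfold co
  rw [map_inv]
  simp [mag, magUnit, invLetter]

theorem co_nil (g : FreeGroup X) : co g [] = 1 := by
  induction g using FreeGroup.induction_on with
  | C1 => simp [co_one]
  | of x => simp [co_of]
  | inv_of x _ => simp [co_inv_of]
  | mul a b h1 h2 => rw [co_mul]; simp [h1, h2]

theorem co_int (g : FreeGroup X) : ∀ v : List X, ∃ z : ℤ, co g v = z := by
  induction g using FreeGroup.induction_on with
  | C1 =>
    intro v
    rw [co_one]
    split_ifs
    · exact ⟨1, by simp⟩
    · exact ⟨0, by simp⟩
  | of x =>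
    intro v
    rw [co_of]
    split_ifs
    · exact ⟨1, by simp⟩
    · exact ⟨1, by simp⟩
    · exact ⟨0, by simp⟩
  | inv_of x _ =>
    intro v
    rw [co_inv_of]
    split_ifs
    · exact ⟨(-1) ^ v.length, by simp⟩
    · exact ⟨0, by simp⟩
  | mul a b h1 h2 =>
    intro v
    choose z1 hz1 using h1
    choose z2 hz2 using h2
    refine ⟨∑ i ∈ Finset.range (v.length + 1), z1 (v.take i) * z2 (v.drop i), ?_⟩
    rw [co_mul]
    push_cast
    exact Finset.sum_congr rfl fun i _ => by rw [hz1, hz2]

/-- Series whose words only have letters in `Y`. -/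
theorem letters_mul {Y : Set X} {a b : FreeGroup X}
    (ha : ∀ v, co a v ≠ 0 → ∀ x ∈ v, x ∈ Y) (hb : ∀ v, co b v ≠ 0 → ∀ x ∈ v, x ∈ Y) :
    ∀ v, co (a * b) v ≠ 0 → ∀ x ∈ v, x ∈ Y := by
  intro v hv x hx
  rw [co_mul] at hv
  obtain ⟨i, _, hi⟩ := Finset.exists_ne_zero_of_sum_ne_zero hv
  rw [← List.take_append_drop i v, List.mem_append] at hx
  rcases hx with hx | hx
  · exact ha _ (left_ne_zero_of_mul hi) x hx
  · exact hb _ (right_ne_zero_of_mul hi) x hx

theorem exists_letters (g : FreeGroup X) :
    ∃ Y : Finset X, g ∈ Sup (Y : Set X) ∧ ∀ v, co g v ≠ 0 → ∀ x ∈ v, x ∈ Y := by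
  induction g using FreeGroup.induction_on with
  | C1 =>
    refine ⟨∅, one_mem _, fun v hv x hx => ?_⟩
    rw [co_one] at hv
    split_ifs at hv with h
    · subst h; exact absurd hx List.not_mem_nil
    · exact absurd rfl hv
  | of y =>
    refine ⟨{y}, Subgroup.subset_closure ⟨y, by simp, rfl⟩, fun v hv x hx => ?_⟩
    rw [co_of] at hv
    split_ifs at hv with h h'
    · subst h; exact absurd hx List.not_mem_nil
    · subst h'; simpa using hx
    · exact absurd rfl hv
  | inv_of y _ =>
    refine ⟨{y}, inv_mem (Subgroup.subset_closure ⟨y, by simp, rfl⟩), fun v hv x hx => ?_⟩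
    rw [co_inv_of] at hv
    split_ifs at hv with h
    · rw [h] at hx
      simpa using List.eq_of_mem_replicate hx
    · exact absurd rfl hv
  | mul a b h1 h2 =>
    obtain ⟨Y1, hY1, h1⟩ := h1
    obtain ⟨Y2, hY2, h2⟩ := h2
    refine ⟨Y1 ∪ Y2, mul_mem (Sup_mono (by simp) hY1) (Sup_mono (by simp) hY2), ?_⟩
    intro v hv x hx
    have := letters_mul (Y := ((Y1 ∪ Y2 : Finset X) : Set X))
      (fun v hv x hx => by simp [h1 v hv x hx]) (fun v hv x hx => by simp [h2 v hv x hx]) v hv x hx
    simpa using this

end

theorem map_lcs {G : Type u} {H : Type v} [Group G] [Group H] (f : G →* H) (n : ℕ) {g : G}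
    (hg : g ∈ lcs G n) : f g ∈ lcs H n := by
  have h1 : (lcs G n).map f ≤ lcs H n := by
    unfold lcs
    rw [Subgroup.map_lowerCentralSeries]
    exact Subgroup.lowerCentralSeries_mono _ le_top
  exact h1 (Subgroup.mem_map_of_mem f hg)

theorem co_map {X : Type u} {Z : Type v} [DecidableEq X] [DecidableEq Z] {j : Z → X}
    (hj : Function.Injective j) (u : FreeGroup Z) :
    ∀ v : List Z, co (FreeGroup.map j u) (v.map j) = co u v := by
  induction u using FreeGroup.induction_on with
  | C1 => intro v; rw [map_one, co_one, co_one]; simp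
  | of x =>
    intro v
    rw [FreeGroup.map.of, co_of, co_of]
    have h1 : v.map j = [j x] ↔ v = [x] := by
      have : [j x] = [x].map j := rfl
      rw [this]
      exact (List.map_injective_iff.2 hj).eq_iff
    simp only [List.map_eq_nil_iff, h1]
  | inv_of x _ =>
    intro v
    rw [map_inv, FreeGroup.map.of, co_inv_of, co_inv_of, List.length_map]
    have h1 : v.map j = List.replicate v.length (j x) ↔ v = List.replicate v.length x := by
      rw [← List.map_replicate]
      exact (List.map_injective_iff.2 hj).eq_iff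
    simp only [h1]
  | mul a b h1 h2 =>
    intro v
    rw [map_mul, co_mul, co_mul, List.length_map]
    refine Finset.sum_congr rfl fun i _ => ?_
    rw [← List.map_take, ← List.map_drop, h1, h2]

theorem mem_lcs_fin {k : ℕ} (g : FreeGroup (Fin k)) (n : ℕ) :
    g ∈ lcs (FreeGroup (Fin k)) n ↔ ∀ v, v ≠ [] → v.length ≤ n → co g v = 0 := by
  have hwt : ∀ v : List (Fin k), wt (fun _ : Fin k => 1) v = v.length := by
    intro v
    simp [wt]
  have hco : ∀ v : List (Fin k), v ≠ [] → (((mag ℚ g : NC (Fin k) ℚ)) - 1) v = co g v := by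
    intro v hv
    rw [NC.sub_apply]
    cases v with
    | nil => exact absurd rfl hv
    | cons a v => rw [NC.one_cons, sub_zero]; rfl
  rw [mem_lcs_iff]
  constructor
  · intro h v hv hl
    rw [← hco v hv]
    exact h v (by rw [hwt]; omega)
  · intro h v hv
    rw [hwt] at hv
    by_cases hn : v = []
    · subst hn
      rw [NC.sub_apply]
      have := co_nil g
      unfold co at this
      rw [this]
      simp
    · rw [hco v hn]
      exact h v hn (by omega)

theorem mem_lcs {X : Type v} [DecidableEq X] (g : FreeGroup X) (n : ℕ) :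
    g ∈ lcs (FreeGroup X) n ↔ ∀ v, v ≠ [] → v.length ≤ n → co g v = 0 := by
  obtain ⟨Y, hgY, hY⟩ := exists_letters g
  set k := Fintype.card Y with hk
  let e : Y ≃ Fin k := Fintype.equivFin Y
  let j : Fin k → X := fun i => (e.symm i : X)
  have hj : Function.Injective j := Subtype.val_injective.comp e.symm.injective
  let κ : FreeGroup X →* FreeGroup (Fin k) :=
    FreeGroup.lift fun x => if h : x ∈ Y then FreeGroup.of (e ⟨x, h⟩) else 1
  have hκ : FreeGroup.map j (κ g) = g := by
    have := hom_eq_on_Sup (f := (FreeGroup.map j).comp κ) (g := MonoidHom.id _)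
      (Y := (Y : Set X)) (fun x hx => by
        have hx' : x ∈ Y := hx
        simp [κ, j, hx']) hgY
    exact this
  have hl : g ∈ lcs (FreeGroup X) n ↔ κ g ∈ lcs (FreeGroup (Fin k)) n := by
    constructor
    · exact fun h => map_lcs κ n h
    · intro h
      rw [← hκ]
      exact map_lcs _ n h
  rw [hl, mem_lcs_fin]
  constructor
  · intro h v hv hlen
    by_contra hne
    have hall := hY v hne
    have hv' : ∃ v' : List (Fin k), v'.map j = v := by
      have : v ∈ Set.range (List.map j) := by
        rw [Set.range_list_map]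
        intro x hx
        exact ⟨e ⟨x, hall x hx⟩, by simp [j]⟩
      exact this
    obtain ⟨v', rfl⟩ := hv'
    apply hne
    rw [← hκ, co_map hj]
    refine h v' (fun h0 => hv (by rw [h0]; rfl)) ?_
    rwa [List.length_map] at hlen
  · intro h v hv hlen
    rw [← co_map hj, hκ]
    exact h _ (fun h0 => hv (List.map_eq_nil_iff.1 h0)) (by rwa [List.length_map])

/-- **MAGF.** -/
theorem magf (X : Type v) : MagF X := by
  classical
  refine ⟨co, co_nil, co_mul, co_int, fun g => ?_, fun n g => mem_lcs g n⟩
  obtain ⟨Y, _, hY⟩ := exists_letters g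
  exact ⟨Y, hY⟩

end Pool.Agent.Helper67.PC
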